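import Mathlib

namespace Pool.Agent.Results.MP_f5847d_nt.ExponentialGap

open Filter Topology

/-- Lower bound for the `p`-part of `n!`. -/
lemma p_part (p n : ℕ) (hp : p.Prime) (hn : 1 ≤ n) :
    (n : ℝ) * (Real.log p / ((p : ℝ) - 1)) - Real.log ((p : ℝ) * n) ≤
      (padicValNat p n.factorial : ℝ) * Real.log p := by
  haveI : Fact p.Prime := ⟨hp⟩
  have h1 := sub_one_mul_padicValNat_factorial (p := p) n
  have hp2 : 2 ≤ p := hp.two_le
  have hs : (p.digits n).sum ≤ (p.digits n).length * (p - 1) := by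
    have := List.sum_le_card_nsmul (p.digits n) (p - 1) (by
      intro d hd
      have := Nat.digits_lt_base (by omega : 1 < p) hd
      omega)
    simpa using this
  have hlen : p ^ (p.digits n).length ≤ p * n :=
    Nat.base_pow_length_digits_le p n (by omega) (by omega)
  have hle : (p.digits n).sum ≤ n := Nat.digit_sum_le p n
  have h2 : (p - 1) * padicValNat p n.factorial + (p.digits n).length * (p - 1) ≥ n := by
    omega
  have h3 : ((p : ℝ) - 1) * (padicValNat p n.factorial : ℝ) +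
      ((p.digits n).length : ℝ) * ((p : ℝ) - 1) ≥ n := by
    have := (Nat.cast_le (α := ℝ)).mpr h2
    push_cast [Nat.cast_sub (by omega : 1 ≤ p)] at this
    linarith
  have hp1 : (0 : ℝ) < (p : ℝ) - 1 := by
    have : (2 : ℝ) ≤ p := by exact_mod_cast hp2
    linarith
  have hlogp : 0 < Real.log p := Real.log_pos (by linarith)
  have h4 : ((p.digits n).length : ℝ) * Real.log p ≤ Real.log ((p : ℝ) * n) := by
    have : ((p : ℝ)) ^ (p.digits n).length ≤ (p : ℝ) * n := by exact_mod_cast hlen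
    rw [← Real.log_pow]
    exact Real.log_le_log (by positivity) this
  have h5 : (n : ℝ) / ((p : ℝ) - 1) ≤
      (padicValNat p n.factorial : ℝ) + ((p.digits n).length : ℝ) := by
    rw [div_le_iff₀ hp1]
    nlinarith
  have h6 : (n : ℝ) / ((p : ℝ) - 1) * Real.log p ≤
      ((padicValNat p n.factorial : ℝ) + ((p.digits n).length : ℝ)) * Real.log p :=
    mul_le_mul_of_nonneg_right h5 hlogp.le
  have h7 : (n : ℝ) * (Real.log p / ((p : ℝ) - 1)) = (n : ℝ) / ((p : ℝ) - 1) * Real.log p := by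
    ring
  rw [h7]
  linarith

/-- For every `c < log p / (p - 1)`, eventually `exp (c n) < p ^ v_p(n!)`. -/
lemma eventually_p (p : ℕ) (hp : p.Prime) (c : ℝ) (hc : c < Real.log p / ((p : ℝ) - 1)) :
    ∀ᶠ n : ℕ in atTop, Real.exp (c * n) < (p : ℝ) ^ padicValNat p n.factorial := by
  have hp0 : (0 : ℝ) < p := by exact_mod_cast hp.pos
  obtain ⟨δ, hδ⟩ : ∃ δ, δ = Real.log p / ((p : ℝ) - 1) - c := ⟨_, rfl⟩
  have hδ0 : 0 < δ := by rw [hδ]; linarith
  have hlim : Tendsto (fun x : ℝ => Real.log x / x) atTop (𝓝 0) := by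
    simpa using Real.tendsto_pow_log_div_mul_add_atTop 1 0 1 one_ne_zero
  have h1 : ∀ᶠ x : ℝ in atTop, Real.log x / x < δ / (2 * p) := hlim.eventually_lt_const (by positivity)
  have h2 : Tendsto (fun n : ℕ => (p : ℝ) * n) atTop atTop :=
    Tendsto.const_mul_atTop hp0 tendsto_natCast_atTop_atTop
  filter_upwards [h2.eventually h1, eventually_ge_atTop 1] with n hn hn1
  have hn0 : (0 : ℝ) < n := by exact_mod_cast hn1
  have h3 := p_part p n hp hn1
  rw [div_lt_iff₀ (by positivity)] at hn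
  have h4 : Real.log ((p : ℝ) * n) < δ * n := by
    have : δ / (2 * p) * (p * n) = δ * n / 2 := by field_simp
    rw [this] at hn
    nlinarith
  have h5 : c * n < (padicValNat p n.factorial : ℝ) * Real.log p := by
    have : (n : ℝ) * (Real.log p / ((p : ℝ) - 1)) = (n : ℝ) * (δ + c) := by rw [hδ]; ring
    rw [this] at h3
    nlinarith
  calc Real.exp (c * n) < Real.exp ((padicValNat p n.factorial : ℝ) * Real.log p) :=
        Real.exp_lt_exp.mpr h5
    _ = (p : ℝ) ^ padicValNat p n.factorial := by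
        rw [← Real.log_pow, Real.exp_log (by positivity)]

/-- `n!` eventually exceeds `A ^ n + exp (c n)`. -/
lemma eventually_fact (A : ℝ) (c : ℝ) :
    ∀ᶠ n : ℕ in atTop, A ^ n + Real.exp (c * n) < (n.factorial : ℝ) := by
  have h1 := (FloorSemiring.tendsto_pow_div_factorial_atTop A).eventually_lt_const
    (show (0 : ℝ) < 1 / 2 by norm_num)
  have h2 := (FloorSemiring.tendsto_pow_div_factorial_atTop (Real.exp c)).eventually_lt_const
    (show (0 : ℝ) < 1 / 2 by norm_num)
  filter_upwards [h1, h2] with n a b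
  have hf : (0 : ℝ) < n.factorial := by exact_mod_cast n.factorial_pos
  rw [div_lt_iff₀ hf] at a b
  have : Real.exp (c * n) = Real.exp c ^ n := by rw [← Real.exp_nat_mul]; ring_nf
  rw [this]
  linarith

/-- For every finite set `S` of primes and every real `c` below all `log p / (p - 1)`, `p ∈ S`,
for all large `n` every `S`-unit different from `n!` is at distance more than `exp (c n)`. -/
theorem result (S : Finset ℕ) (hS : ∀ p ∈ S, Nat.Prime p) (c : ℝ)
    (hc : ∀ p ∈ S, c < Real.log p / ((p : ℝ) - 1)) :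
    ∃ N : ℕ, ∀ n : ℕ, N ≤ n → ∀ k : ℕ → ℕ,
      (Nat.factorial n : ℝ) ≠ ∏ p ∈ S, (p : ℝ) ^ (k p) →
        Real.exp (c * (n : ℝ)) <
          |(Nat.factorial n : ℝ) - ∏ p ∈ S, (p : ℝ) ^ (k p)| := by
  have h1 : ∀ᶠ n : ℕ in atTop, ∀ p ∈ S,
      Real.exp (c * n) < (p : ℝ) ^ padicValNat p n.factorial :=
    (Finset.eventually_all S).mpr fun p hp => eventually_p p (hS p hp) c (hc p hp)
  have h2 := eventually_fact (∏ p ∈ S, (p : ℝ)) c
  obtain ⟨N, hN⟩ := eventually_atTop.mp (h1.and (h2.and (eventually_ge_atTop 1)))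
  refine ⟨N, fun n hn k hne => ?_⟩
  obtain ⟨g1, g2, g3⟩ := hN n hn
  by_cases hk : ∃ p ∈ S, padicValNat p n.factorial ≤ k p
  · obtain ⟨p, hp, hkp⟩ := hk
    haveI : Fact p.Prime := ⟨hS p hp⟩
    have d1 : ((p ^ padicValNat p n.factorial : ℕ) : ℤ) ∣
        (n.factorial : ℤ) - ((∏ q ∈ S, q ^ k q : ℕ) : ℤ) := by
      apply dvd_sub
      · exact_mod_cast pow_padicValNat_dvd
      · have : p ^ padicValNat p n.factorial ∣ ∏ q ∈ S, q ^ k q :=
          (pow_dvd_pow p hkp).trans (Finset.dvd_prod_of_mem (fun q => q ^ k q) hp)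
        exact_mod_cast this
    have d2 : (n.factorial : ℤ) - ((∏ q ∈ S, q ^ k q : ℕ) : ℤ) ≠ 0 := by
      intro h0
      apply hne
      have : ((n.factorial : ℤ) : ℝ) = (((∏ q ∈ S, q ^ k q : ℕ) : ℤ) : ℝ) := by
        rw [sub_eq_zero.mp h0]
      push_cast at this
      exact this
    have d3 := Int.le_of_dvd (abs_pos.mpr d2) ((dvd_abs _ _).mpr d1)
    have d4 : (((p ^ padicValNat p n.factorial : ℕ) : ℤ) : ℝ) ≤
        ((|(n.factorial : ℤ) - ((∏ q ∈ S, q ^ k q : ℕ) : ℤ)| : ℤ) : ℝ) := by exact_mod_cast d3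
    push_cast at d4
    exact lt_of_lt_of_le (g1 p hp) d4
  · push Not at hk
    have hle : ∏ p ∈ S, (p : ℝ) ^ (k p) ≤ (∏ p ∈ S, (p : ℝ)) ^ n := by
      rw [← Finset.prod_pow]
      apply Finset.prod_le_prod
      · intro p _; positivity
      · intro p hp
        haveI : Fact p.Prime := ⟨hS p hp⟩
        have hp1 : (1 : ℝ) ≤ p := by exact_mod_cast (hS p hp).one_lt.le
        apply pow_le_pow_right₀ hp1
        have a1 := hk p hp
        have a2 := sub_one_mul_padicValNat_factorial (p := p) n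
        have a3 : padicValNat p n.factorial ≤ (p - 1) * padicValNat p n.factorial := by
          have : 1 ≤ p - 1 := by have := (hS p hp).two_le; omega
          nlinarith
        omega
    have : Real.exp (c * n) < (n.factorial : ℝ) - ∏ p ∈ S, (p : ℝ) ^ (k p) := by linarith
    exact lt_of_lt_of_le this (le_abs_self _)

end Pool.Agent.Results.MP_f5847d_nt.ExponentialGap
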